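import Pool.Agent.MP_07a0c6_lc.Mg.Interval
import Pool.Agent.MP_07a0c6_lc.Mg.Tree

open Pool.Agent.Lib.Cx Pool.Agent.MP_07a0c6_lc

/-- The up-color domination weight is computable in polynomial time on trees, and the decision
problem is NP-complete on bipartite graphs and on interval graphs. -/
theorem Pool.Agent.Results.MP_07a0c6_lc.Full.result :
    (∃ f : List (List Bool) → ℕ, N68a2faeb.IsPolyTime f ∧
      ∀ (n : ℕ) (G : SimpleGraph (Fin n)), G.IsTree → f (adjRows G) = upWeight G) ∧
    N793a5b8e.IsCompleteFor N68a2faeb.NP (UCW (fun _ G => G.IsBipartite)) ∧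
    N793a5b8e.IsCompleteFor N68a2faeb.NP (UCW (fun _ G => IsIntervalGraph G)) :=
  ⟨⟨treeAlg, pt_iff_isPolyTime.1 treeAlg_pt, fun _ G h => treeAlg_spec G h.isAcyclic⟩,
    bip_complete_NP, interval_complete_NP⟩
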